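import Mathlib

set_option autoImplicit false

namespace Pool.Agent.Helper28_Stab

open Filter Topology

section wot

variable (X : Type) [NormedAddCommGroup X] [NormedSpace ℂ X]

/-- evaluation map defining the weak operator topology -/
noncomputable def ev (T : {T : X →L[ℂ] X // ‖T‖ ≤ 1}) (p : X × (X →L[ℂ] ℂ)) : ℂ := p.2 (T.1 p.1)

/-- weak operator topology on the contractions -/
noncomputable abbrev wot : TopologicalSpace {T : X →L[ℂ] X // ‖T‖ ≤ 1} :=
  TopologicalSpace.induced
            (fun (T : {T : X →L[ℂ] X // ‖T‖ ≤ 1}) (p : X × (X →L[ℂ] ℂ)) => p.2 (T.1 p.1))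
            (Pi.topologicalSpace : TopologicalSpace (X × (X →L[ℂ] ℂ) → ℂ))

theorem wot_isInducing : @IsInducing _ _ (wot X) _ (ev X) := by
  let _ := wot X
  exact ⟨rfl⟩

theorem wot_tendsto_iff {ι : Type*} (l : Filter ι) (u : ι → {T : X →L[ℂ] X // ‖T‖ ≤ 1})
    (T : {T : X →L[ℂ] X // ‖T‖ ≤ 1}) :
    Tendsto u l (@nhds _ (wot X) T) ↔
      ∀ (x : X) (f : X →L[ℂ] ℂ), Tendsto (fun i => f ((u i).1 x)) l (𝓝 (f (T.1 x))) := by
  let _ := wot X
  rw [(wot_isInducing X).tendsto_nhds_iff, tendsto_pi_nhds]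
  constructor
  · intro h x f; exact h (x, f)
  · intro h p; exact h p.1 p.2

theorem ev_continuous (x : X) (f : X →L[ℂ] ℂ) :
    @Continuous _ _ (wot X) _ (fun T : {T : X →L[ℂ] X // ‖T‖ ≤ 1} => f (T.1 x)) := by
  let _ := wot X
  exact (continuous_apply (x, f)).comp (wot_isInducing X).continuous

theorem ev_injective : Function.Injective (ev X) := by
  intro S T h
  apply Subtype.ext
  ext x
  have : ∀ f : X →L[ℂ] ℂ, f (S.1 x) = f (T.1 x) := fun f => congrFun h (x, f)
  exact (SeparatingDual.eq_iff_forall_dual_eq (R := ℂ)).mpr this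

theorem wot_t2 : @T2Space _ (wot X) := by
  let _ := wot X
  have h : IsEmbedding (ev X) := ⟨wot_isInducing X, ev_injective X⟩
  exact h.t2Space

theorem range_ev (hX : Function.Surjective (NormedSpace.inclusionInDoubleDual ℂ X)) :
    Set.range (ev X) = {B : X × (X →L[ℂ] ℂ) → ℂ |
      (∀ x x' f, B (x + x', f) = B (x, f) + B (x', f)) ∧
      (∀ (c : ℂ) x f, B (c • x, f) = c * B (x, f)) ∧
      (∀ x f f', B (x, f + f') = B (x, f) + B (x, f')) ∧
      (∀ (c : ℂ) x f, B (x, c • f) = c * B (x, f)) ∧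
      (∀ x f, ‖B (x, f)‖ ≤ ‖x‖ * ‖f‖)} := by
  ext B
  constructor
  · rintro ⟨T, rfl⟩
    refine ⟨?_, ?_, ?_, ?_, ?_⟩
    · intro x x' f; simp [ev]
    · intro c x f; simp [ev]
    · intro x f f'; simp [ev]
    · intro c x f; simp [ev]
    · intro x f
      simp only [ev]
      calc ‖f (T.1 x)‖ ≤ ‖f‖ * ‖T.1 x‖ := f.le_opNorm _
        _ ≤ ‖f‖ * (1 * ‖x‖) := by
            gcongr
            exact T.1.le_of_opNorm_le T.2 x
        _ = ‖x‖ * ‖f‖ := by ring
  · rintro ⟨h1, h2, h3, h4, h5⟩
    -- for each `x` the functional `f ↦ B (x, f)`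
    let G : X → (X →L[ℂ] ℂ) →L[ℂ] ℂ := fun x =>
      LinearMap.mkContinuous
        { toFun := fun f => B (x, f)
          map_add' := fun f f' => h3 x f f'
          map_smul' := fun c f => h4 c x f } ‖x‖ (fun f => h5 x f)
    have hG : ∀ x f, G x f = B (x, f) := fun x f => rfl
    choose t ht using fun x => hX (G x)
    have ht' : ∀ x (f : X →L[ℂ] ℂ), f (t x) = B (x, f) := fun x f => by
      rw [← hG, ← ht x]; rfl
    have hinj : ∀ u v : X, (∀ f : X →L[ℂ] ℂ, f u = f v) → u = v := fun u v h =>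
      (SeparatingDual.eq_iff_forall_dual_eq (R := ℂ)).mpr h
    have htn : ∀ x, ‖t x‖ ≤ 1 * ‖x‖ := fun x => by
      have h6 : ‖NormedSpace.inclusionInDoubleDualLi ℂ (t x)‖ = ‖t x‖ :=
        (NormedSpace.inclusionInDoubleDualLi ℂ).norm_map (t x)
      rw [← h6]
      have h7 : NormedSpace.inclusionInDoubleDualLi ℂ (t x) = G x := ht x
      rw [h7, one_mul]
      exact LinearMap.mkContinuous_norm_le _ (norm_nonneg _) _
    let T : X →L[ℂ] X := LinearMap.mkContinuous
        { toFun := t
          map_add' := fun x x' => hinj _ _ fun f => by rw [map_add, ht', ht', ht', h1]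
          map_smul' := fun c x => hinj _ _ fun f => by
            rw [map_smul, ht', RingHom.id_apply, ht', h2, smul_eq_mul] } 1 htn
    refine ⟨⟨T, LinearMap.mkContinuous_norm_le _ zero_le_one _⟩, ?_⟩
    ext ⟨x, f⟩
    exact ht' x f

theorem wot_compact (hX : Function.Surjective (NormedSpace.inclusionInDoubleDual ℂ X)) :
    @CompactSpace _ (wot X) := by
  let _ := wot X
  rw [← isCompact_univ_iff, (wot_isInducing X).isCompact_iff, Set.image_univ]
  have hK : IsCompact (Set.pi Set.univ
      (fun p : X × (X →L[ℂ] ℂ) => Metric.closedBall (0 : ℂ) (‖p.1‖ * ‖p.2‖))) :=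
    isCompact_univ_pi fun p => isCompact_closedBall _ _
  refine hK.of_isClosed_subset ?_ ?_
  · rw [range_ev X hX]
    simp only [Set.ofPred_and, Set.ofPred_forall]
    refine IsClosed.inter ?_ (IsClosed.inter ?_ (IsClosed.inter ?_ (IsClosed.inter ?_ ?_)))
    · refine isClosed_iInter fun x => isClosed_iInter fun x' => isClosed_iInter fun f => ?_
      exact isClosed_eq (by fun_prop) (by fun_prop)
    · refine isClosed_iInter fun c => isClosed_iInter fun x => isClosed_iInter fun f => ?_
      exact isClosed_eq (by fun_prop) (by fun_prop)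
    · refine isClosed_iInter fun x => isClosed_iInter fun x' => isClosed_iInter fun f => ?_
      exact isClosed_eq (by fun_prop) (by fun_prop)
    · refine isClosed_iInter fun c => isClosed_iInter fun x => isClosed_iInter fun f => ?_
      exact isClosed_eq (by fun_prop) (by fun_prop)
    · refine isClosed_iInter fun x => isClosed_iInter fun f => ?_
      exact isClosed_le (continuous_apply _).norm continuous_const
  · rw [range_ev X hX]
    rintro B ⟨-, -, -, -, h5⟩ ⟨x, f⟩ -
    simpa using h5 x f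

theorem wot_baire (hX : Function.Surjective (NormedSpace.inclusionInDoubleDual ℂ X)) :
    @BaireSpace _ (wot X) := by
  let _ := wot X
  have := wot_compact X hX
  have := wot_t2 X
  infer_instance

end wot

end Pool.Agent.Helper28_Stab
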