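import Mathlib

set_option autoImplicit false

namespace Pool.Agent.Helper28_Stab

open Filter Topology
open scoped InnerProductSpace

variable {H : Type*} [NormedAddCommGroup H] [InnerProductSpace ℂ H]

/-- equality case defect of the triangle inequality in a Hilbert space -/
theorem cross_identity (u w : H) :
    ‖(‖w‖ : ℂ) • u - (‖u‖ : ℂ) • w‖ ^ 2 = ‖u‖ * ‖w‖ * ((‖u‖ + ‖w‖) ^ 2 - ‖u + w‖ ^ 2) := by
  have h1 := @norm_sub_sq ℂ H _ _ _ ((‖w‖ : ℂ) • u) ((‖u‖ : ℂ) • w)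
  have h2 := @norm_add_sq ℂ H _ _ _ u w
  rw [h1, h2]
  simp only [norm_smul, inner_smul_left, inner_smul_right, Complex.norm_real, norm_norm,
    Complex.conj_ofReal]
  have h3 : RCLike.re ((‖u‖ : ℂ) * ((‖w‖ : ℂ) * ⟪u, w⟫_ℂ)) = ‖w‖ * (‖u‖ * RCLike.re ⟪u, w⟫_ℂ) := by
    simp; ring
  rw [h3]; ring

/-- If `|φ h| + ‖S h‖ ≤ ‖h‖` for all `h` then `‖S h‖² ≤ (1 - ‖φ‖²) ‖h‖²`. -/
theorem S_bound [CompleteSpace H] (φ : H →L[ℂ] ℂ) (S : H →L[ℂ] H)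
    (h2 : ∀ h, ‖φ h‖ + ‖S h‖ ≤ ‖h‖) (h : H) : ‖S h‖ ^ 2 ≤ (1 - ‖φ‖ ^ 2) * ‖h‖ ^ 2 := by
  obtain ⟨f, hf⟩ := (InnerProductSpace.toDual ℂ H).surjective φ
  have hfn : ‖f‖ = ‖φ‖ := by rw [← hf]; simp
  have hφ : ∀ h, φ h = ⟪f, h⟫_ℂ := fun h => by rw [← hf]; simp
  -- for every `k` with norm `≤ 1`
  have key : ∀ k : H, ‖k‖ ≤ 1 → ‖f + ContinuousLinearMap.adjoint S k‖ ≤ 1 := by
    intro k hk
    set g := f + ContinuousLinearMap.adjoint S k with hg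
    have h1 : ‖⟪g, g⟫_ℂ‖ ≤ ‖g‖ := by
      have : ⟪g, g⟫_ℂ = φ g + ⟪k, S g⟫_ℂ := by
        rw [hφ]
        conv_lhs => rw [hg]
        rw [inner_add_left, ContinuousLinearMap.adjoint_inner_left]
      rw [this]
      calc ‖φ g + ⟪k, S g⟫_ℂ‖ ≤ ‖φ g‖ + ‖⟪k, S g⟫_ℂ‖ := norm_add_le _ _
        _ ≤ ‖φ g‖ + ‖k‖ * ‖S g‖ := by gcongr; exact norm_inner_le_norm _ _
        _ ≤ ‖φ g‖ + 1 * ‖S g‖ := by gcongr
        _ ≤ ‖g‖ := by rw [one_mul]; exact h2 g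
    rw [inner_self_eq_norm_sq_to_K] at h1
    simp only [norm_pow, Complex.coe_algebraMap, Complex.norm_real, norm_norm] at h1
    by_contra hcon
    push Not at hcon
    nlinarith
  have key2 : ∀ k : H, ‖k‖ ≤ 1 → ‖ContinuousLinearMap.adjoint S k‖ ^ 2 ≤ 1 - ‖φ‖ ^ 2 := by
    intro k hk
    have a1 := key k hk
    have a2 := key (-k) (by simpa using hk)
    rw [map_neg, ← sub_eq_add_neg] at a2
    have hp := parallelogram_law_with_norm ℂ f (ContinuousLinearMap.adjoint S k)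
    rw [hfn] at hp
    have n1 := norm_nonneg (f + ContinuousLinearMap.adjoint S k)
    have n2 := norm_nonneg (f - ContinuousLinearMap.adjoint S k)
    nlinarith
  have key3 : ∀ k : H, ‖ContinuousLinearMap.adjoint S k‖ ^ 2 ≤ (1 - ‖φ‖ ^ 2) * ‖k‖ ^ 2 := by
    intro k
    rcases eq_or_ne k 0 with rfl | hk
    · simp
    have hk' : ‖k‖ ≠ 0 := norm_ne_zero_iff.mpr hk
    have := key2 (((‖k‖⁻¹ : ℝ) : ℂ) • k) (by
      rw [norm_smul, Complex.norm_real, norm_inv, norm_norm, inv_mul_cancel₀ hk'])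
    rw [map_smul, norm_smul, Complex.norm_real, norm_inv, norm_norm, mul_pow] at this
    have hpos : 0 < ‖k‖ ^ 2 := by positivity
    calc ‖ContinuousLinearMap.adjoint S k‖ ^ 2
        = (‖k‖⁻¹ ^ 2 * ‖ContinuousLinearMap.adjoint S k‖ ^ 2) * ‖k‖ ^ 2 := by
          field_simp
      _ ≤ (1 - ‖φ‖ ^ 2) * ‖k‖ ^ 2 := by gcongr
  have h4 : ‖S h‖ ^ 2 ≤ ‖ContinuousLinearMap.adjoint S (S h)‖ * ‖h‖ := by
    have : ‖⟪S h, S h⟫_ℂ‖ ≤ ‖ContinuousLinearMap.adjoint S (S h)‖ * ‖h‖ := by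
      rw [← ContinuousLinearMap.adjoint_inner_left]
      exact norm_inner_le_norm _ _
    rw [inner_self_eq_norm_sq_to_K] at this
    simpa using this
  have h5 := key3 (S h)
  set p := ‖ContinuousLinearMap.adjoint S (S h)‖
  have hp : 0 ≤ p := norm_nonneg _
  have hs : 0 ≤ ‖S h‖ := norm_nonneg _
  have hh : 0 ≤ ‖h‖ := norm_nonneg _
  rcases eq_or_lt_of_le hs with h0 | h0
  · rw [← h0]
    have := h5
    have h6 : ‖φ‖ ≤ 1 := by
      rw [← hfn]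
      have := key 0 (by simp)
      simpa using this
    have h7 : 0 ≤ 1 - ‖φ‖ ^ 2 := by nlinarith [norm_nonneg φ]
    have h8 : 0 ≤ (1 - ‖φ‖ ^ 2) * ‖h‖ ^ 2 := mul_nonneg h7 (sq_nonneg _)
    simpa using h8
  · -- `s^4 ≤ p^2 h^2 ≤ (1-m²) s² h²`
    have h6 : (‖S h‖ ^ 2) ^ 2 ≤ (p * ‖h‖) ^ 2 := by gcongr
    have h7 : (p * ‖h‖) ^ 2 ≤ ((1 - ‖φ‖ ^ 2) * ‖S h‖ ^ 2) * ‖h‖ ^ 2 := by
      rw [mul_pow]; gcongr
    have h8 : ‖S h‖ ^ 2 * ‖S h‖ ^ 2 ≤ ‖S h‖ ^ 2 * ((1 - ‖φ‖ ^ 2) * ‖h‖ ^ 2) := by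
      calc ‖S h‖ ^ 2 * ‖S h‖ ^ 2 = (‖S h‖ ^ 2) ^ 2 := by ring
        _ ≤ ((1 - ‖φ‖ ^ 2) * ‖S h‖ ^ 2) * ‖h‖ ^ 2 := h6.trans h7
        _ = _ := by ring
    exact le_of_mul_le_mul_left h8 (by positivity)

/-- The main dynamical lemma: the orbit tends to zero in norm. -/
theorem orbit_tendsto_zero [CompleteSpace H] (a : ℂ) (y : H) (φ : H →L[ℂ] ℂ) (S : H →L[ℂ] H)
    (h1 : ‖a‖ + ‖y‖ ≤ 1) (h2 : ∀ h, ‖φ h‖ + ‖S h‖ ≤ ‖h‖) (hφ : φ ≠ 0)
    (ψ : H →L[ℂ] ℂ) (hψy : ψ y = 0) (hψS : ψ (S y) ≠ 0)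
    (c : ℕ → ℂ) (h : ℕ → H) (hc : ∀ k, c (k + 1) = a * c k + φ (h k))
    (hh : ∀ k, h (k + 1) = c k • y + S (h k)) :
    Tendsto (fun k => ‖c k‖ + ‖h k‖) atTop (𝓝 0) := by
  have hy : y ≠ 0 := by
    rintro rfl
    simp at hψS
  -- contraction factor of S
  set κ : ℝ := Real.sqrt (1 - ‖φ‖ ^ 2) with hκ
  have hφpos : 0 < ‖φ‖ := norm_pos_iff.mpr hφ
  have hm1 : ‖φ‖ < 1 := by
    by_contra hcon
    push Not at hcon
    have := S_bound φ S h2 y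
    have h0 : ‖S y‖ ^ 2 ≤ 0 := by
      have h9 : (1 - ‖φ‖ ^ 2) ≤ 0 := by nlinarith
      exact this.trans (mul_nonpos_of_nonpos_of_nonneg h9 (sq_nonneg _))
    have h0' : S y = 0 := by
      have : ‖S y‖ = 0 := by
        have := norm_nonneg (S y)
        nlinarith
      exact norm_eq_zero.mp this
    rw [h0'] at hψS
    simp at hψS
  have hκ1 : κ < 1 := by
    rw [hκ, Real.sqrt_lt' one_pos]
    nlinarith
  have hκ0 : 0 ≤ κ := Real.sqrt_nonneg _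
  have hSκ : ∀ x, ‖S x‖ ≤ κ * ‖x‖ := by
    intro x
    have := S_bound φ S h2 x
    have h7 : 0 ≤ 1 - ‖φ‖ ^ 2 := by nlinarith
    have h8 : (κ * ‖x‖) ^ 2 = (1 - ‖φ‖ ^ 2) * ‖x‖ ^ 2 := by
      rw [mul_pow, hκ, Real.sq_sqrt h7]
    rw [← h8] at this
    exact abs_le_of_sq_le_sq' this (by positivity) |>.2
  have hφm : ∀ x, ‖φ x‖ ≤ ‖φ‖ * ‖x‖ := fun x => φ.le_opNorm x
  set N : ℕ → ℝ := fun k => ‖c k‖ + ‖h k‖ with hN
  -- inequalities at each step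
  have i1 : ∀ k, ‖c (k + 1)‖ ≤ ‖a‖ * ‖c k‖ + ‖φ (h k)‖ := fun k => by
    rw [hc k]; exact (norm_add_le _ _).trans (by rw [norm_mul])
  have i2 : ∀ k, ‖h (k + 1)‖ ≤ ‖c k‖ * ‖y‖ + ‖S (h k)‖ := fun k => by
    rw [hh k]; exact (norm_add_le _ _).trans (by rw [norm_smul])
  have i3 : ∀ k, ‖a‖ * ‖c k‖ + ‖c k‖ * ‖y‖ ≤ ‖c k‖ := fun k => by
    nlinarith [norm_nonneg (c k)]
  have i4 : ∀ k, ‖φ (h k)‖ + ‖S (h k)‖ ≤ ‖h k‖ := fun k => h2 _
  have hanti : Antitone N := antitone_nat_of_succ_le fun k => by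
    simp only [hN]; linarith [i1 k, i2 k, i3 k, i4 k]
  have hN0 : ∀ k, 0 ≤ N k := fun k => by simp only [hN]; positivity
  have hbdd : BddBelow (Set.range N) := ⟨0, by rintro _ ⟨k, rfl⟩; exact hN0 k⟩
  obtain ⟨ρ, hρ⟩ : ∃ ρ, Tendsto N atTop (𝓝 ρ) := ⟨_, tendsto_atTop_ciInf hanti hbdd⟩
  have hρ0 : 0 ≤ ρ := ge_of_tendsto' hρ hN0
  rcases eq_or_lt_of_le hρ0 with h0 | hρpos
  · rw [← h0] at hρ; exact hρ
  exfalso
  have hNρ : ∀ k, ρ ≤ N k := fun k => hanti.le_of_tendsto hρ k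
  set ε : ℕ → ℝ := fun k => N k - N (k + 1) with hε
  have hε0 : Tendsto ε atTop (𝓝 0) := by
    have := hρ.sub ((tendsto_add_atTop_iff_nat 1).mpr hρ)
    simpa using this
  have hεnn : ∀ k, 0 ≤ ε k := fun k => by
    simp only [hε]; linarith [hanti (Nat.le_succ k)]
  have d1 : ∀ k, ‖h k‖ - ε k ≤ ‖φ (h k)‖ + ‖S (h k)‖ := fun k => by
    simp only [hε, hN]; linarith [i1 k, i2 k, i3 k, i4 k]
  have d2 : ∀ k, ‖c k‖ * ‖y‖ + ‖S (h k)‖ - ε k ≤ ‖h (k + 1)‖ := fun k => by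
    simp only [hε, hN]; linarith [i1 k, i2 k, i3 k, i4 k]
  have d3 : ∀ k, ‖φ (h k)‖ - ε k ≤ ‖c (k + 1)‖ := fun k => by
    have := mul_nonneg (norm_nonneg a) (norm_nonneg (c k))
    simp only [hε, hN]; linarith [i1 k, i2 k, i3 k, i4 k]
  -- lower bounds
  set β : ℝ := min ‖y‖ (1 - ‖φ‖) with hβ
  have hβpos : 0 < β := lt_min (norm_pos_iff.mpr hy) (by linarith)
  have e1 : ∀ k, β * ρ - 2 * ε k ≤ ‖h (k + 1)‖ := fun k => by
    have a1 := d2 k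
    have a2 := d1 k
    have a3 := hφm (h k)
    have a4 : β * ‖c k‖ ≤ ‖c k‖ * ‖y‖ := by
      rw [mul_comm]; gcongr; exact min_le_left _ _
    have a5 : β * ‖h k‖ ≤ (1 - ‖φ‖) * ‖h k‖ := by
      gcongr; exact min_le_right _ _
    have a6 : β * ρ ≤ β * N k := by gcongr; exact hNρ k
    simp only [hN] at a6
    nlinarith
  have e2 : ∀ k, (1 - κ) * (β * ρ - 2 * ε k) - 2 * ε (k + 1) ≤ ‖c (k + 2)‖ := fun k => by
    have a1 := d3 (k + 1)
    have a2 := d1 (k + 1)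
    have a3 := hSκ (h (k + 1))
    have a4 := e1 k
    have a5 : (1 - κ) * (β * ρ - 2 * ε k) ≤ (1 - κ) * ‖h (k + 1)‖ := by
      apply mul_le_mul_of_nonneg_left a4; linarith
    have : k + 1 + 1 = k + 2 := rfl
    rw [this] at a1
    nlinarith
  set δ : ℝ := (1 - κ) * (β * ρ) / 2 with hδ
  have hδpos : 0 < δ := by
    rw [hδ]; have : 0 < 1 - κ := by linarith
    positivity
  have e3 : ∀ᶠ k in atTop, δ ≤ ‖c k‖ := by
    have hl : Tendsto (fun k => (1 - κ) * (β * ρ - 2 * ε k) - 2 * ε (k + 1)) atTop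
        (𝓝 ((1 - κ) * (β * ρ - 2 * 0) - 2 * 0)) := by
      refine Tendsto.sub (Tendsto.const_mul _ (Tendsto.sub tendsto_const_nhds
        (Tendsto.const_mul _ hε0))) (Tendsto.const_mul _ ?_)
      exact (tendsto_add_atTop_iff_nat 1).mpr hε0
    have hlt : δ < (1 - κ) * (β * ρ - 2 * 0) - 2 * 0 := by
      have : (1 - κ) * (β * ρ - 2 * 0) - 2 * 0 = 2 * δ := by rw [hδ]; ring
      rw [this]; linarith
    have := (hl.eventually_const_lt hlt)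
    have h3 : ∀ᶠ k in atTop, δ ≤ ‖c (k + 2)‖ := by
      filter_upwards [this] with k hk
      exact hk.le.trans (e2 k)
    obtain ⟨K, hK⟩ := eventually_atTop.mp h3
    refine eventually_atTop.mpr ⟨K + 2, fun k hk => ?_⟩
    have := hK (k - 2) (by omega)
    rwa [Nat.sub_add_cancel (by omega)] at this
  -- the vectors z k
  set z : ℕ → H := fun k => (‖S (h k)‖ : ℂ) • (c k • y) - (‖c k • y‖ : ℂ) • S (h k) with hz
  have hNle : ∀ k, N k ≤ N 0 := fun k => hanti (Nat.zero_le k)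
  have hzsq : ∀ k, ‖z k‖ ^ 2 ≤ (4 * N 0 ^ 3) * ε k := fun k => by
    simp only [hz]
    rw [cross_identity]
    have b1 : ‖c k • y‖ ≤ N 0 := by
      rw [norm_smul]
      have := hNle k
      simp only [hN] at this ⊢
      have h5 : ‖y‖ ≤ 1 := by linarith [norm_nonneg a]
      nlinarith [norm_nonneg (c k), norm_nonneg (h k), norm_nonneg y]
    have b2 : ‖S (h k)‖ ≤ N 0 := by
      have := hNle k
      simp only [hN] at this ⊢
      linarith [norm_nonneg (c k), i4 k, norm_nonneg (φ (h k))]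
    have b3 : ‖c k • y‖ + ‖S (h k)‖ - ‖c k • y + S (h k)‖ ≤ ε k := by
      rw [← hh k, norm_smul]; linarith [d2 k]
    have b4 : 0 ≤ ‖c k • y‖ + ‖S (h k)‖ - ‖c k • y + S (h k)‖ := by
      linarith [norm_add_le (c k • y) (S (h k))]
    have b5 : 0 ≤ ‖c k • y + S (h k)‖ := norm_nonneg _
    have b6 : 0 ≤ ‖c k • y‖ := norm_nonneg _
    have b7 : 0 ≤ ‖S (h k)‖ := norm_nonneg _
    set P := ‖c k • y‖
    set Q := ‖S (h k)‖
    set R := ‖c k • y + S (h k)‖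
    have hN00 : 0 ≤ N 0 := hN0 0
    have b8 : (P + Q) ^ 2 - R ^ 2 ≤ ε k * (4 * N 0) := by
      have : (P + Q) ^ 2 - R ^ 2 = (P + Q - R) * (P + Q + R) := by ring
      rw [this]
      apply mul_le_mul b3 _ (by positivity) (hεnn k)
      linarith
    have b9 : 0 ≤ (P + Q) ^ 2 - R ^ 2 := by
      have : (P + Q) ^ 2 - R ^ 2 = (P + Q - R) * (P + Q + R) := by ring
      rw [this]; positivity
    calc P * Q * ((P + Q) ^ 2 - R ^ 2) ≤ N 0 * N 0 * (ε k * (4 * N 0)) := by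
          gcongr
      _ = (4 * N 0 ^ 3) * ε k := by ring
  have hz0 : Tendsto z atTop (𝓝 0) := by
    rw [tendsto_zero_iff_norm_tendsto_zero]
    have : Tendsto (fun k => ‖z k‖ ^ 2) atTop (𝓝 0) := by
      refine squeeze_zero (fun k => sq_nonneg _) hzsq ?_
      simpa using hε0.const_mul (4 * N 0 ^ 3)
    have h2' := this.sqrt
    simpa [Real.sqrt_sq (norm_nonneg _)] using h2'
  -- apply ψ
  have hψz : Tendsto (fun k => ψ (z k)) atTop (𝓝 0) := by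
    have := (ψ.continuous.tendsto 0).comp hz0
    rw [map_zero] at this
    exact this
  have hψz' : ∀ k, ψ (z k) = - ((‖c k • y‖ : ℂ) * ψ (S (h k))) := fun k => by
    simp [hz, hψy]
  have hψSz : Tendsto (fun k => ψ (S (z k))) atTop (𝓝 0) := by
    have := ((ψ.comp S).continuous.tendsto 0).comp hz0
    rw [map_zero] at this
    exact this
  have hSh : ∀ k, S (h k) = h (k + 1) - c k • y := fun k => by rw [hh k]; abel
  have hψSz' : ∀ k, ψ (S (z k)) = ((‖S (h k)‖ : ℂ) + (‖c k • y‖ : ℂ)) * (c k * ψ (S y))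
      - (‖c k • y‖ : ℂ) * ψ (S (h (k + 1))) := fun k => by
    have hzk : z k = ((‖S (h k)‖ : ℂ) + (‖c k • y‖ : ℂ)) • (c k • y)
        - (‖c k • y‖ : ℂ) • h (k + 1) := by
      simp only [hz]
      have h5 : (‖c k • y‖ : ℂ) • S (h k) = (‖c k • y‖ : ℂ) • h (k + 1)
          - (‖c k • y‖ : ℂ) • (c k • y) := by
        rw [← smul_sub, hSh k]
      rw [h5, add_smul]; abel
    rw [hzk]
    simp only [map_sub, map_smul, smul_eq_mul]
  -- ψ (S (h k)) → 0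
  have hypos : 0 < ‖y‖ := norm_pos_iff.mpr hy
  have hlow : ∀ᶠ k in atTop, δ * ‖y‖ ≤ ‖c k • y‖ := by
    filter_upwards [e3] with k hk
    rw [norm_smul]; gcongr
  have hψSh : Tendsto (fun k => ψ (S (h k))) atTop (𝓝 0) := by
    rw [tendsto_zero_iff_norm_tendsto_zero]
    have h5 : Tendsto (fun k => ‖ψ (z k)‖ / (δ * ‖y‖)) atTop (𝓝 0) := by
      have := (tendsto_zero_iff_norm_tendsto_zero.mp hψz).div_const (δ * ‖y‖)
      simpa using this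
    refine squeeze_zero' (Eventually.of_forall fun k => norm_nonneg _) ?_ h5
    filter_upwards [hlow] with k hk
    rw [hψz' k, norm_neg, norm_mul, Complex.norm_real, norm_norm, le_div_iff₀ (by positivity),
      mul_comm]
    gcongr
  have hψSh1 : Tendsto (fun k => (‖c k • y‖ : ℂ) * ψ (S (h (k + 1)))) atTop (𝓝 0) := by
    rw [tendsto_zero_iff_norm_tendsto_zero]
    have h5 : Tendsto (fun k => N 0 * ‖ψ (S (h (k + 1)))‖) atTop (𝓝 0) := by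
      have := (tendsto_zero_iff_norm_tendsto_zero.mp
        ((tendsto_add_atTop_iff_nat 1).mpr hψSh)).const_mul (N 0)
      simpa using this
    refine squeeze_zero (fun k => norm_nonneg _) (fun k => ?_) h5
    rw [norm_mul, Complex.norm_real, norm_norm]
    gcongr
    rw [norm_smul]
    have := hNle k
    simp only [hN] at this ⊢
    have h5 : ‖y‖ ≤ 1 := by linarith [norm_nonneg a]
    nlinarith [norm_nonneg (c k), norm_nonneg (h k), norm_nonneg y]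
  have hfin : Tendsto (fun k => ((‖S (h k)‖ : ℂ) + (‖c k • y‖ : ℂ)) * (c k * ψ (S y))) atTop
      (𝓝 0) := by
    have := hψSz.add hψSh1
    simp only [add_zero] at this
    refine this.congr fun k => ?_
    rw [hψSz' k]; ring
  have hfin' := tendsto_zero_iff_norm_tendsto_zero.mp hfin
  have hψSypos : 0 < ‖ψ (S y)‖ := norm_pos_iff.mpr hψS
  have hge : ∀ᶠ k in atTop, δ * ‖y‖ * (δ * ‖ψ (S y)‖) ≤
      ‖((‖S (h k)‖ : ℂ) + (‖c k • y‖ : ℂ)) * (c k * ψ (S y))‖ := by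
    filter_upwards [hlow, e3] with k hk hk2
    rw [norm_mul, norm_mul, ← Complex.ofReal_add, Complex.norm_real, Real.norm_of_nonneg
      (by positivity)]
    gcongr
    linarith [norm_nonneg (S (h k))]
  have := ge_of_tendsto hfin' hge
  have hpos : 0 < δ * ‖y‖ * (δ * ‖ψ (S y)‖) := by positivity
  linarith

end Pool.Agent.Helper28_Stab
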