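import Mathlib

set_option autoImplicit false

namespace Pool.Agent.Helper28_Stab

open Filter Topology WithLp
open scoped InnerProductSpace

section refl

variable {H : Type} [NormedAddCommGroup H] [InnerProductSpace ℂ H]

/-- Hilbert spaces are reflexive. -/
theorem hilbert_reflexive [CompleteSpace H] (G : (H →L[ℂ] ℂ) →L[ℂ] ℂ) : ∃ h : H, ∀ ψ : H →L[ℂ] ℂ, G ψ = ψ h := by
  -- the functional `k ↦ conj (G ⟪k, ·⟫)`
  let g : H →L[ℂ] ℂ :=
    LinearMap.mkContinuous
      { toFun := fun k => (starRingEnd ℂ) (G (InnerProductSpace.toDual ℂ H k))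
        map_add' := fun k k' => by simp
        map_smul' := fun c k => by
          rw [map_smulₛₗ, map_smul, smul_eq_mul, map_mul]; simp } ‖G‖ (fun k => by
          simp only [LinearMap.coe_mk, AddHom.coe_mk, RCLike.norm_conj]
          calc ‖G (InnerProductSpace.toDual ℂ H k)‖ ≤ ‖G‖ * ‖InnerProductSpace.toDual ℂ H k‖ :=
                G.le_opNorm _
            _ = ‖G‖ * ‖k‖ := by simp)
  have hg : ∀ k, g k = (starRingEnd ℂ) (G (InnerProductSpace.toDual ℂ H k)) := fun k => rfl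
  refine ⟨(InnerProductSpace.toDual ℂ H).symm g, fun ψ => ?_⟩
  obtain ⟨k, rfl⟩ := (InnerProductSpace.toDual ℂ H).surjective ψ
  have h1 : ⟪(InnerProductSpace.toDual ℂ H).symm g, k⟫_ℂ = g k := by simp
  have h2 : ⟪k, (InnerProductSpace.toDual ℂ H).symm g⟫_ℂ = (starRingEnd ℂ) (g k) := by
    rw [← h1, inner_conj_symm]
  rw [InnerProductSpace.toDual_apply_apply, h2, hg]
  simp

/-- inclusion of the second factor -/
noncomputable def inr : H →L[ℂ] WithLp 1 (ℂ × H) :=
  ((prodContinuousLinearEquiv 1 ℂ ℂ H).symm : (ℂ × H) →L[ℂ] WithLp 1 (ℂ × H)).comp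
    (ContinuousLinearMap.inr ℂ ℂ H)

/-- inclusion of the first factor -/
noncomputable def inl : ℂ →L[ℂ] WithLp 1 (ℂ × H) :=
  ((prodContinuousLinearEquiv 1 ℂ ℂ H).symm : (ℂ × H) →L[ℂ] WithLp 1 (ℂ × H)).comp
    (ContinuousLinearMap.inl ℂ ℂ H)

@[simp] theorem inr_fst (h : H) : (inr h : WithLp 1 (ℂ × H)).fst = 0 := rfl
@[simp] theorem inr_snd (h : H) : (inr h : WithLp 1 (ℂ × H)).snd = h := rfl
@[simp] theorem inl_fst (c : ℂ) : (inl c : WithLp 1 (ℂ × H)).fst = c := rfl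
@[simp] theorem inl_snd (c : ℂ) : (inl c : WithLp 1 (ℂ × H)).snd = 0 := rfl

theorem norm_eq (x : WithLp 1 (ℂ × H)) : ‖x‖ = ‖x.fst‖ + ‖x.snd‖ := prod_norm_eq_of_L1 x

theorem ext' {x x' : WithLp 1 (ℂ × H)} (h1 : x.fst = x'.fst) (h2 : x.snd = x'.snd) : x = x' := by
  have h : x - x' = 0 := by
    rw [← norm_eq_zero, norm_eq]
    simp [h1, h2]
  exact sub_eq_zero.mp h

theorem decomp (x : WithLp 1 (ℂ × H)) : x = inl x.fst + inr x.snd := by
  apply ext' <;> simp

theorem norm_inr (h : H) : ‖(inr h : WithLp 1 (ℂ × H))‖ = ‖h‖ := by rw [norm_eq]; simp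
theorem norm_inl (c : ℂ) : ‖(inl c : WithLp 1 (ℂ × H))‖ = ‖c‖ := by rw [norm_eq]; simp

theorem X_reflexive [CompleteSpace H] :
    Function.Surjective (NormedSpace.inclusionInDoubleDual ℂ (WithLp 1 (ℂ × H))) := by
  intro F
  let G : (H →L[ℂ] ℂ) →L[ℂ] ℂ :=
    F.comp ((ContinuousLinearMap.compL ℂ (WithLp 1 (ℂ × H)) H ℂ).flip (sndL 1 ℂ ℂ H))
  have hG : ∀ ψ : H →L[ℂ] ℂ, G ψ = F (ψ.comp (sndL 1 ℂ ℂ H)) := fun ψ => rfl
  obtain ⟨h, hh⟩ := hilbert_reflexive G
  refine ⟨inl (F (fstL 1 ℂ ℂ H)) + inr h, ?_⟩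
  ext f
  rw [NormedSpace.dual_def]
  have hf : f = (f (inl 1)) • (fstL 1 ℂ ℂ H) + (f.comp inr).comp (sndL 1 ℂ ℂ H) := by
    ext x
    conv_lhs => rw [decomp x]
    rw [map_add]
    have : (inl x.fst : WithLp 1 (ℂ × H)) = x.fst • inl 1 := by
      rw [← map_smul]; simp
    rw [this, map_smul]
    simp [fstL, sndL, mul_comm]
  have h3 : F f = f (inl 1) * F (fstL 1 ℂ ℂ H) + (f.comp inr) h := by
    conv_lhs => rw [hf]
    rw [map_add, map_smul, ← hG, hh, smul_eq_mul]
  rw [h3, map_add]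
  have : (inl (F (fstL 1 ℂ ℂ H)) : WithLp 1 (ℂ × H)) = (F (fstL 1 ℂ ℂ H)) • inl 1 := by
    rw [← map_smul]; simp
  rw [this, map_smul, smul_eq_mul, mul_comm]
  rfl

end refl

section l2

/-- the model Hilbert space -/
abbrev L2 : Type := lp (fun _ : ℕ => ℂ) 2

instance : TopologicalSpace.SeparableSpace L2 := by
  let b : HilbertBasis ℕ ℂ L2 := default
  have h1 := b.dense_span
  have h2 : TopologicalSpace.IsSeparable (Set.range b) := (Set.countable_range b).isSeparable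
  have h3 : TopologicalSpace.IsSeparable (Submodule.span ℂ (Set.range b) : Set L2) := h2.span
  have h4 := h3.closure
  have h5 : closure (Submodule.span ℂ (Set.range b) : Set L2) = Set.univ := by
    have := congrArg (fun S : Submodule ℂ L2 => (S : Set L2)) h1
    rw [← Submodule.topologicalClosure_coe, this]; rfl
  rw [h5] at h4
  exact TopologicalSpace.isSeparable_univ_iff.mp h4

/-- the counterexample space `ℂ ⊕₁ ℓ²` -/
abbrev X : Type := WithLp 1 (ℂ × L2)

instance : TopologicalSpace.SeparableSpace X := by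
  have : DenseRange (prodContinuousLinearEquiv 1 ℂ ℂ L2).symm :=
    (prodContinuousLinearEquiv 1 ℂ ℂ L2).symm.surjective.denseRange
  exact this.separableSpace (prodContinuousLinearEquiv 1 ℂ ℂ L2).symm.continuous

theorem exists_orthonormal : ∃ e : ℕ → L2, Orthonormal ℂ e := by
  let b : HilbertBasis ℕ ℂ L2 := default
  exact ⟨b, b.orthonormal⟩

theorem L2_infinite : ¬ FiniteDimensional ℂ L2 := by
  intro h
  obtain ⟨e, he⟩ := exists_orthonormal
  have h1 := he.linearIndependent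
  have h2 := h1.lt_aleph0_of_finiteDimensional
  simp at h2

theorem X_infinite : ¬ FiniteDimensional ℂ X := by
  intro h
  apply L2_infinite
  have hs : Function.Surjective (sndL 1 ℂ ℂ L2 : X →ₗ[ℂ] L2) := fun v => ⟨inr v, rfl⟩
  exact FiniteDimensional.of_surjective _ hs

end l2

end Pool.Agent.Helper28_Stab
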