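import Mathlib
import Pool.Agent.Helper28_Stab.Seq
import Pool.Agent.Helper28_Stab.Space

set_option autoImplicit false

namespace Pool.Agent.Helper28_Stab

open Filter Topology WithLp
open scoped InnerProductSpace

section

variable {H : Type} [NormedAddCommGroup H] [InnerProductSpace ℂ H]

/-- functional part of the second column -/
noncomputable def phi (T : WithLp 1 (ℂ × H) →L[ℂ] WithLp 1 (ℂ × H)) : H →L[ℂ] ℂ :=
  (fstL 1 ℂ ℂ H).comp (T.comp inr)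

/-- operator part of the second column -/
noncomputable def Sop (T : WithLp 1 (ℂ × H) →L[ℂ] WithLp 1 (ℂ × H)) : H →L[ℂ] H :=
  (sndL 1 ℂ ℂ H).comp (T.comp inr)

/-- vector part of the first column -/
noncomputable def yv (T : WithLp 1 (ℂ × H) →L[ℂ] WithLp 1 (ℂ × H)) : H := (T (inl 1)).snd

/-- scalar part of the first column -/
noncomputable def av (T : WithLp 1 (ℂ × H) →L[ℂ] WithLp 1 (ℂ × H)) : ℂ := (T (inl 1)).fst

theorem phi_apply (T : WithLp 1 (ℂ × H) →L[ℂ] WithLp 1 (ℂ × H)) (h : H) :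
    phi T h = (T (inr h)).fst := rfl
theorem Sop_apply (T : WithLp 1 (ℂ × H) →L[ℂ] WithLp 1 (ℂ × H)) (h : H) :
    Sop T h = (T (inr h)).snd := rfl

theorem inl_eq (c : ℂ) : (inl c : WithLp 1 (ℂ × H)) = c • inl 1 := by
  rw [← map_smul]; simp

theorem T_fst (T : WithLp 1 (ℂ × H) →L[ℂ] WithLp 1 (ℂ × H)) (x : WithLp 1 (ℂ × H)) :
    (T x).fst = av T * x.fst + phi T x.snd := by
  conv_lhs => rw [decomp x, map_add, inl_eq, map_smul]
  simp [av, phi_apply, mul_comm]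

theorem T_snd (T : WithLp 1 (ℂ × H) →L[ℂ] WithLp 1 (ℂ × H)) (x : WithLp 1 (ℂ × H)) :
    (T x).snd = x.fst • yv T + Sop T x.snd := by
  conv_lhs => rw [decomp x, map_add, inl_eq, map_smul]
  simp [yv, Sop_apply]

theorem col1 (T : WithLp 1 (ℂ × H) →L[ℂ] WithLp 1 (ℂ × H)) (hT : ‖T‖ ≤ 1) :
    ‖av T‖ + ‖yv T‖ ≤ 1 := by
  have h1 : ‖T (inl 1)‖ ≤ 1 * ‖(inl 1 : WithLp 1 (ℂ × H))‖ := T.le_of_opNorm_le hT _
  rw [norm_inl, norm_eq] at h1
  simpa [av, yv] using h1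

theorem col2 (T : WithLp 1 (ℂ × H) →L[ℂ] WithLp 1 (ℂ × H)) (hT : ‖T‖ ≤ 1) (h : H) :
    ‖phi T h‖ + ‖Sop T h‖ ≤ ‖h‖ := by
  have h1 : ‖T (inr h)‖ ≤ 1 * ‖(inr h : WithLp 1 (ℂ × H))‖ := T.le_of_opNorm_le hT _
  rw [norm_inr, norm_eq, one_mul] at h1
  exact h1

/-- a functional separating `S y` from the line through `y` -/
theorem exists_sep (y s : H) (h : ∀ μ : ℂ, s ≠ μ • y) :
    ∃ ψ : H →L[ℂ] ℂ, ψ y = 0 ∧ ψ s ≠ 0 := by
  have hy : y ∉ ({0} : Set H) ∨ y = 0 := by tauto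
  rcases eq_or_ne y 0 with rfl | hy
  · have hs : s ≠ 0 := by simpa using h 0
    refine ⟨innerSL ℂ s, by simp, ?_⟩
    rw [innerSL_apply_apply, inner_self_ne_zero]
    exact hs
  · have hyy : ⟪y, y⟫_ℂ ≠ 0 := inner_self_ne_zero.mpr hy
    set μ : ℂ := ⟪y, s⟫_ℂ / ⟪y, y⟫_ℂ with hμ
    set w : H := s - μ • y with hw
    have hw0 : w ≠ 0 := sub_ne_zero.mpr (h μ)
    have hyw : ⟪y, w⟫_ℂ = 0 := by
      rw [hw, inner_sub_right, inner_smul_right, hμ]
      field_simp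
      simp
    have hwy : ⟪w, y⟫_ℂ = 0 := by rw [← inner_conj_symm, hyw, map_zero]
    refine ⟨innerSL ℂ w, by rw [innerSL_apply_apply, hwy], ?_⟩
    rw [innerSL_apply_apply]
    have hs : s = w + μ • y := by rw [hw]; abel
    rw [hs, inner_add_right, inner_smul_right, hwy, mul_zero, add_zero]
    exact inner_self_ne_zero.mpr hw0

theorem strongly_stable [CompleteSpace H] (T : WithLp 1 (ℂ × H) →L[ℂ] WithLp 1 (ℂ × H))
    (hT : ‖T‖ ≤ 1) (hφ : phi T ≠ 0) (hS : ∀ μ : ℂ, Sop T (yv T) ≠ μ • yv T)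
    (x : WithLp 1 (ℂ × H)) : Tendsto (fun n : ℕ => (T ^ n) x) atTop (𝓝 0) := by
  obtain ⟨ψ, hψ1, hψ2⟩ := exists_sep _ _ hS
  rw [tendsto_zero_iff_norm_tendsto_zero]
  have := orbit_tendsto_zero (av T) (yv T) (phi T) (Sop T) (col1 T hT) (col2 T hT) hφ ψ hψ1 hψ2
    (fun n => ((T ^ n) x).fst) (fun n => ((T ^ n) x).snd)
    (fun k => by
      have : (T ^ (k + 1)) x = T ((T ^ k) x) := by rw [pow_succ']; rfl
      rw [this, T_fst])
    (fun k => by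
      have : (T ^ (k + 1)) x = T ((T ^ k) x) := by rw [pow_succ']; rfl
      rw [this, T_snd])
  refine this.congr fun n => ?_
  rw [norm_eq]

end

end Pool.Agent.Helper28_Stab
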