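import Mathlib
import Pool.Agent.Helper28_Stab.Compact
import Pool.Agent.Helper28_Stab.Stable

set_option autoImplicit false

namespace Pool.Agent.Helper28_Stab

open Filter Topology WithLp
open scoped InnerProductSpace

/-- contractions of the model space -/
abbrev C : Type := {T : X →L[ℂ] X // ‖T‖ ≤ 1}

theorem exists_A (S : L2 →L[ℂ] L2) (y : L2) (hy : y ≠ 0) (ε : ℝ) (hε : 0 < ε) :
    ∃ A : L2 →L[ℂ] L2, (∀ x, ‖A x‖ ≤ ‖x‖) ∧ ∀ μ : ℂ, S y + (ε : ℂ) • A y ≠ μ • y := by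
  by_cases hcase : ∀ μ : ℂ, S y ≠ μ • y
  · exact ⟨0, by simp, by simpa using hcase⟩
  · push Not at hcase
    obtain ⟨μ₀, hμ₀⟩ := hcase
    -- a vector outside the line of `y`
    obtain ⟨s, hs⟩ : ∃ s : L2, ∀ μ : ℂ, s ≠ μ • y := by
      by_contra hcon
      push Not at hcon
      apply L2_infinite
      refine Module.Finite.of_surjective (LinearMap.toSpanSingleton ℂ L2 y) fun s => ?_
      obtain ⟨μ, hμ⟩ := hcon s
      exact ⟨μ, hμ.symm⟩
    have hs0 : s ≠ 0 := by simpa using hs 0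
    have hsn : 0 < ‖s‖ := norm_pos_iff.mpr hs0
    have hyn : 0 < ‖y‖ := norm_pos_iff.mpr hy
    let A : L2 →L[ℂ] L2 := (ContinuousLinearMap.toSpanSingleton ℂ
      (((‖y‖⁻¹ * ‖s‖⁻¹ : ℝ) : ℂ) • s)).comp (innerSL ℂ y)
    have hA : ∀ x, A x = ⟪y, x⟫_ℂ • (((‖y‖⁻¹ * ‖s‖⁻¹ : ℝ) : ℂ) • s) := fun x => by
      simp [A]
    refine ⟨A, fun x => ?_, fun μ hμ => ?_⟩
    · rw [hA, norm_smul, norm_smul, Complex.norm_real, Real.norm_of_nonneg (by positivity)]
      calc ‖⟪y, x⟫_ℂ‖ * (‖y‖⁻¹ * ‖s‖⁻¹ * ‖s‖) ≤ (‖y‖ * ‖x‖) * (‖y‖⁻¹ * ‖s‖⁻¹ * ‖s‖) := by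
            gcongr; exact norm_inner_le_norm _ _
        _ = ‖x‖ := by field_simp
    · rw [hμ₀, hA, inner_self_eq_norm_sq_to_K] at hμ
      have h1 : (ε : ℂ) • (((‖y‖ : ℂ) ^ 2) • (((‖y‖⁻¹ * ‖s‖⁻¹ : ℝ) : ℂ) • s)) = (μ - μ₀) • y := by
        rw [sub_smul, ← hμ]
        simp
      rw [smul_smul, smul_smul] at h1
      set q : ℂ := (ε : ℂ) * ((‖y‖ : ℂ) ^ 2) * ((‖y‖⁻¹ * ‖s‖⁻¹ : ℝ) : ℂ) with hq
      have hq0 : q ≠ 0 := by
        rw [hq]
        have a1 : (ε : ℂ) ≠ 0 := by exact_mod_cast hε.ne'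
        have a2 : (‖y‖ : ℂ) ≠ 0 := by exact_mod_cast hyn.ne'
        have a3 : ((‖y‖⁻¹ * ‖s‖⁻¹ : ℝ) : ℂ) ≠ 0 := by
          have : (‖y‖⁻¹ * ‖s‖⁻¹ : ℝ) ≠ 0 := by positivity
          exact_mod_cast this
        positivity
      apply hs (q⁻¹ * (μ - μ₀))
      rw [← smul_smul, ← h1, smul_smul, inv_mul_cancel₀ hq0, one_smul]

theorem exists_t (v : X) (hv : ‖v‖ ≤ 1) (e : L2) (he : ‖e‖ = 1) :
    ∃ t : ℝ, 0 ≤ t ∧ t ≤ 2 ∧ ‖v + (t : ℂ) • (inr e : X)‖ = 1 := by
  have hcont : ContinuousOn (fun t : ℝ => ‖v + (t : ℂ) • (inr e : X)‖) (Set.Icc 0 2) := by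
    apply Continuous.continuousOn
    fun_prop
  have h := intermediate_value_Icc (by norm_num : (0 : ℝ) ≤ 2) hcont
  have h1 : (1 : ℝ) ∈ Set.Icc (‖v + ((0 : ℝ) : ℂ) • (inr e : X)‖)
      (‖v + ((2 : ℝ) : ℂ) • (inr e : X)‖) := by
    constructor
    · simpa using hv
    · have h2 : ‖((2 : ℝ) : ℂ) • (inr e : X)‖ = 2 := by
        rw [norm_smul, norm_inr, he, Complex.norm_real]; norm_num
      have h3 : ‖((2 : ℝ) : ℂ) • (inr e : X)‖ ≤ ‖v + ((2 : ℝ) : ℂ) • (inr e : X)‖ + ‖v‖ := by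
        have := norm_sub_le (v + ((2 : ℝ) : ℂ) • (inr e : X)) v
        simpa using this
      linarith
  obtain ⟨t, ht, ht'⟩ := h h1
  exact ⟨t, ht.1, ht.2, ht'⟩

/-- the set of admissible generic operators used for density -/
def D : Set C := {T | ‖T.1 (inl 1)‖ = 1 ∧ ∀ μ : ℂ, Sop T.1 (yv T.1) ≠ μ • yv T.1}

theorem weak_null (e : ℕ → L2) (he : Orthonormal ℂ e) (f : X →L[ℂ] ℂ) :
    Tendsto (fun n => f (inr (e n))) atTop (𝓝 0) := by
  obtain ⟨u, hu⟩ := (InnerProductSpace.toDual ℂ L2).surjective (f.comp inr)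
  have h1 : ∀ n, f (inr (e n)) = ⟪u, e n⟫_ℂ := fun n => by
    have : (f.comp inr) (e n) = ⟪u, e n⟫_ℂ := by rw [← hu]; simp
    exact this
  have h2 : Summable fun n => ‖⟪e n, u⟫_ℂ‖ ^ 2 := he.inner_products_summable u
  have h3 := h2.tendsto_atTop_zero
  rw [tendsto_zero_iff_norm_tendsto_zero]
  have h4 := h3.sqrt
  simp only [Real.sqrt_sq (norm_nonneg _), Real.sqrt_zero] at h4
  refine h4.congr fun n => ?_
  rw [h1, norm_inner_symm]

theorem D_dense : @Dense _ (wot X) D := by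
  let _ := wot X
  intro T
  obtain ⟨e, he⟩ := exists_orthonormal
  set ε : ℕ → ℝ := fun n => 1 / ((n : ℝ) + 1) with hεdef
  have hε0 : ∀ n, 0 < ε n := fun n => by simp only [hεdef]; positivity
  have hε1 : ∀ n, ε n ≤ 1 := fun n => by
    simp only [hεdef]
    rw [div_le_one (by positivity)]
    have : (0 : ℝ) ≤ n := Nat.cast_nonneg n
    linarith
  have hεlim : Tendsto ε atTop (𝓝 0) := tendsto_one_div_add_atTop_nhds_zero_nat
  have hTc : ‖T.1 (inl 1)‖ ≤ 1 := by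
    have := T.1.le_of_opNorm_le T.2 (inl 1)
    simpa [norm_inl] using this
  -- choose t
  have hv : ∀ n, ‖((1 - ε n : ℝ) : ℂ) • T.1 (inl 1)‖ ≤ 1 := fun n => by
    rw [norm_smul, Complex.norm_real, Real.norm_of_nonneg (by linarith [hε1 n])]
    have := hε0 n
    nlinarith [norm_nonneg (T.1 (inl 1)), hε1 n]
  choose t ht0 ht2 ht using fun n => exists_t _ (hv n) (e n) (he.norm_eq_one n)
  set y : ℕ → L2 := fun n => ((1 - ε n : ℝ) : ℂ) • yv T.1 + (t n : ℂ) • e n with hydef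
  have hyne : ∀ n, y n ≠ 0 := fun n h0 => by
    have h1 := ht n
    rw [norm_eq] at h1
    simp only [add_fst, smul_fst, inr_fst, smul_zero, add_zero, add_snd, smul_snd, inr_snd] at h1
    have h2 : ((1 - ε n : ℝ) : ℂ) • (T.1 (inl 1)).snd + (t n : ℂ) • e n = 0 := h0
    rw [h2, norm_zero, add_zero, norm_smul, Complex.norm_real,
      Real.norm_of_nonneg (by linarith [hε1 n])] at h1
    have h3 : ‖(T.1 (inl 1)).fst‖ ≤ 1 := by
      have := col1 T.1 T.2
      have h4 := norm_nonneg (yv T.1)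
      change ‖av T.1‖ ≤ 1
      linarith
    have h4 := hε0 n
    nlinarith [norm_nonneg (T.1 (inl 1)).fst, hε1 n]
  choose A hA1 hA2 using fun n =>
    exists_A (((1 - ε n : ℝ) : ℂ) • Sop T.1) (y n) (hyne n) (ε n) (hε0 n)
  -- the approximating operators
  let U : ℕ → X →L[ℂ] X := fun n => ((1 - ε n : ℝ) : ℂ) • T.1 +
    (t n : ℂ) • ((ContinuousLinearMap.toSpanSingleton ℂ (inr (e n) : X)).comp (fstL 1 ℂ ℂ L2)) +
    (ε n : ℂ) • ((inr : L2 →L[ℂ] X).comp ((A n).comp (sndL 1 ℂ ℂ L2)))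
  have hU : ∀ n x, U n x = ((1 - ε n : ℝ) : ℂ) • T.1 x + (t n : ℂ) • x.fst • (inr (e n) : X) +
    (ε n : ℂ) • (inr (A n x.snd) : X) := fun n x => by
      simp [U]
  have hUl : ∀ n, U n (inl 1) = ((1 - ε n : ℝ) : ℂ) • T.1 (inl 1) + (t n : ℂ) • (inr (e n) : X) :=
    fun n => by rw [hU]; simp
  have hUr : ∀ n h, U n (inr h) = ((1 - ε n : ℝ) : ℂ) • T.1 (inr h) + (ε n : ℂ) • (inr (A n h) : X) :=
    fun n h => by rw [hU]; simp
  have hUn : ∀ n, ‖U n‖ ≤ 1 := fun n => by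
    refine ContinuousLinearMap.opNorm_le_bound _ zero_le_one fun x => ?_
    conv_lhs => rw [decomp x, map_add, inl_eq, map_smul]
    refine (norm_add_le _ _).trans ?_
    rw [norm_smul, hUl, ht n, mul_one, one_mul, norm_eq x]
    gcongr
    rw [hUr]
    refine (norm_add_le _ _).trans ?_
    rw [norm_smul, norm_smul, norm_inr, Complex.norm_real, Complex.norm_real,
      Real.norm_of_nonneg (by linarith [hε1 n]), Real.norm_of_nonneg (hε0 n).le]
    have h5 : ‖T.1 (inr x.snd)‖ ≤ ‖x.snd‖ := by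
      have := T.1.le_of_opNorm_le T.2 (inr x.snd)
      rwa [norm_inr, one_mul] at this
    have h6 := hA1 n x.snd
    have h7 := hε0 n
    have h8 := hε1 n
    nlinarith [norm_nonneg x.snd]
  have hyU : ∀ n, yv (U n) = y n := fun n => by
    simp only [yv, hUl, hydef]
    rfl
  have hSU : ∀ n h, Sop (U n) h = (((1 - ε n : ℝ) : ℂ) • Sop T.1) h + (ε n : ℂ) • A n h :=
    fun n h => by
      rw [Sop_apply, hUr]
      rfl
  refine mem_closure_of_tendsto (f := fun n => (⟨U n, hUn n⟩ : C)) (b := atTop) ?_ ?_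
  · rw [wot_tendsto_iff]
    intro x f
    have h1 : ∀ n, f (U n x) = ((1 - ε n : ℝ) : ℂ) * f (T.1 x) +
        (t n : ℂ) * (x.fst * f (inr (e n))) + (ε n : ℂ) * f (inr (A n x.snd)) := fun n => by
      rw [hU]; simp
    simp only [h1]
    have l1 : Tendsto (fun n => ((1 - ε n : ℝ) : ℂ) * f (T.1 x)) atTop (𝓝 (f (T.1 x))) := by
      have h2 : Tendsto (fun n => (1 - ε n : ℝ)) atTop (𝓝 1) := by
        simpa using hεlim.const_sub 1
      have h3 : Tendsto (fun n => ((1 - ε n : ℝ) : ℂ)) atTop (𝓝 1) := by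
        have := (Complex.continuous_ofReal.tendsto 1).comp h2
        simpa [Function.comp_def] using this
      simpa using h3.mul_const (f (T.1 x))
    have l2 : Tendsto (fun n => (t n : ℂ) * (x.fst * f (inr (e n)))) atTop (𝓝 0) := by
      rw [tendsto_zero_iff_norm_tendsto_zero]
      have h2 := (tendsto_zero_iff_norm_tendsto_zero.mp
        ((weak_null e he f).const_mul x.fst |>.trans (by simp))).const_mul 2
      rw [mul_zero] at h2
      refine squeeze_zero (fun n => norm_nonneg _) (fun n => ?_) h2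
      rw [norm_mul, Complex.norm_real, Real.norm_of_nonneg (ht0 n)]
      gcongr
      exact ht2 n
    have l3 : Tendsto (fun n => (ε n : ℂ) * f (inr (A n x.snd))) atTop (𝓝 0) := by
      rw [tendsto_zero_iff_norm_tendsto_zero]
      have h2 := hεlim.mul_const (‖f‖ * ‖x.snd‖)
      rw [zero_mul] at h2
      refine squeeze_zero (fun n => norm_nonneg _) (fun n => ?_) h2
      rw [norm_mul, Complex.norm_real, Real.norm_of_nonneg (hε0 n).le]
      have := (hε0 n).le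
      gcongr
      refine (f.le_opNorm _).trans ?_
      rw [norm_inr]
      gcongr
      exact hA1 n _
    simpa using (l1.add l2).add l3
  · refine Eventually.of_forall fun n => ⟨?_, fun μ => ?_⟩
    · change ‖U n (inl 1)‖ = 1
      rw [hUl, ht n]
    · change Sop (U n) (yv (U n)) ≠ μ • yv (U n)
      rw [hyU, hSU]
      exact hA2 n μ

end Pool.Agent.Helper28_Stab
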