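import Mathlib
import Pool.Agent.Helper28_Stab.Dense

set_option autoImplicit false

namespace Pool.Agent.Helper28_Stab

open Filter Topology WithLp
open scoped InnerProductSpace

/-- operators for which the image of the first column is not an eigenvector direction -/
def NE : Set C := {T | ∀ μ : ℂ, Sop T.1 (yv T.1) ≠ μ • yv T.1}

/-- operators with nonzero functional part -/
def NP : Set C := {T | phi T.1 ≠ 0}

theorem yv_tendsto (T₀ : C) (h₀ : ‖T₀.1 (inl 1)‖ = 1) :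
    Tendsto (fun T : C => yv T.1) (@nhds _ (wot X) T₀) (𝓝 (yv T₀.1)) := by
  let _ := wot X
  rw [tendsto_iff_norm_sub_tendsto_zero]
  have hav : Tendsto (fun T : C => av T.1) (𝓝 T₀) (𝓝 (av T₀.1)) :=
    (ev_continuous X (inl 1) (fstL 1 ℂ ℂ L2)).tendsto T₀
  have hin : Tendsto (fun T : C => ⟪yv T₀.1, yv T.1⟫_ℂ) (𝓝 T₀) (𝓝 ⟪yv T₀.1, yv T₀.1⟫_ℂ) :=
    (ev_continuous X (inl 1) ((innerSL ℂ (yv T₀.1)).comp (sndL 1 ℂ ℂ L2))).tendsto T₀
  have hb : ∀ T : C, ‖yv T.1 - yv T₀.1‖ ^ 2 ≤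
      (1 - ‖av T.1‖) ^ 2 - 2 * RCLike.re ⟪yv T₀.1, yv T.1⟫_ℂ + ‖yv T₀.1‖ ^ 2 := fun T => by
    rw [@norm_sub_sq ℂ]
    have h1 := col1 T.1 T.2
    have h2 : ‖yv T.1‖ ^ 2 ≤ (1 - ‖av T.1‖) ^ 2 := by
      have := norm_nonneg (yv T.1)
      gcongr
      linarith
    have h3 : RCLike.re ⟪yv T.1, yv T₀.1⟫_ℂ = RCLike.re ⟪yv T₀.1, yv T.1⟫_ℂ := inner_re_symm _ _
    rw [h3]
    linarith
  have hl : Tendsto (fun T : C => (1 - ‖av T.1‖) ^ 2 - 2 * RCLike.re ⟪yv T₀.1, yv T.1⟫_ℂ +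
      ‖yv T₀.1‖ ^ 2) (𝓝 T₀) (𝓝 ((1 - ‖av T₀.1‖) ^ 2 - 2 * RCLike.re ⟪yv T₀.1, yv T₀.1⟫_ℂ +
      ‖yv T₀.1‖ ^ 2)) := by
    have hre : Tendsto (fun T : C => RCLike.re ⟪yv T₀.1, yv T.1⟫_ℂ) (𝓝 T₀)
      (𝓝 (RCLike.re ⟪yv T₀.1, yv T₀.1⟫_ℂ)) :=
      (RCLike.continuous_re.tendsto _).comp hin
    exact (((hav.norm.const_sub 1).pow 2).sub (hre.const_mul 2)).add_const _
  have h0 : (1 - ‖av T₀.1‖) ^ 2 - 2 * RCLike.re ⟪yv T₀.1, yv T₀.1⟫_ℂ + ‖yv T₀.1‖ ^ 2 = 0 := by
    rw [inner_self_eq_norm_sq]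
    have h1 : ‖av T₀.1‖ + ‖yv T₀.1‖ = 1 := by
      rw [norm_eq] at h₀; exact h₀
    have h2 : 1 - ‖av T₀.1‖ = ‖yv T₀.1‖ := by linarith
    rw [h2]; ring
  rw [h0] at hl
  have hsq : Tendsto (fun T : C => ‖yv T.1 - yv T₀.1‖ ^ 2) (𝓝 T₀) (𝓝 0) :=
    squeeze_zero (fun T => sq_nonneg _) hb hl
  have := hsq.sqrt
  simpa [Real.sqrt_sq (norm_nonneg _)] using this

theorem D_subset_interior : D ⊆ @interior _ (wot X) NE := by
  let _ := wot X
  rintro T₀ ⟨h₀, hne⟩
  rw [mem_interior_iff_mem_nhds]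
  obtain ⟨ψ, hψ1, hψ2⟩ := exists_sep _ _ hne
  have hy := yv_tendsto T₀ h₀
  have t1 : Tendsto (fun T : C => ψ (yv T.1)) (𝓝 T₀) (𝓝 0) := by
    have := (ψ.continuous.tendsto _).comp hy
    rw [hψ1] at this
    exact this
  have t2 : Tendsto (fun T : C => ψ (Sop T.1 (yv T.1))) (𝓝 T₀) (𝓝 (ψ (Sop T₀.1 (yv T₀.1)))) := by
    have s1 : Tendsto (fun T : C => ψ (Sop T.1 (yv T₀.1))) (𝓝 T₀)
        (𝓝 (ψ (Sop T₀.1 (yv T₀.1)))) :=
      (ev_continuous X (inr (yv T₀.1)) (ψ.comp (sndL 1 ℂ ℂ L2))).tendsto T₀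
    have s2 : Tendsto (fun T : C => ψ (Sop T.1 (yv T.1 - yv T₀.1))) (𝓝 T₀) (𝓝 0) := by
      rw [tendsto_zero_iff_norm_tendsto_zero]
      have s3 : Tendsto (fun T : C => ‖ψ‖ * ‖yv T.1 - yv T₀.1‖) (𝓝 T₀) (𝓝 0) := by
        have := (tendsto_iff_norm_sub_tendsto_zero.mp hy).const_mul ‖ψ‖
        simpa using this
      refine squeeze_zero (fun T => norm_nonneg _) (fun T => ?_) s3
      refine (ψ.le_opNorm _).trans ?_
      gcongr
      have := col2 T.1 T.2 (yv T.1 - yv T₀.1)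
      linarith [norm_nonneg (phi T.1 (yv T.1 - yv T₀.1))]
    have := s1.add s2
    rw [add_zero] at this
    refine this.congr fun T => ?_
    rw [← map_add, ← map_add]
    congr 2
    abel
  have hlt : ‖(0 : ℂ)‖ < ‖ψ (Sop T₀.1 (yv T₀.1))‖ := by
    rw [norm_zero]; exact norm_pos_iff.mpr hψ2
  have hev := (t1.norm).eventually_lt t2.norm hlt
  filter_upwards [hev] with T hT μ hμ
  rw [hμ, map_smul, norm_smul] at hT
  rcases eq_or_ne (yv T.1) 0 with h0 | h0
  · rw [h0] at hT; simp at hT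
  · have h1 := col2 T.1 T.2 (yv T.1)
    rw [hμ, norm_smul] at h1
    have h2 : 0 < ‖yv T.1‖ := norm_pos_iff.mpr h0
    have h3 : ‖μ‖ ≤ 1 := by
      by_contra hcon
      push Not at hcon
      have := norm_nonneg (phi T.1 (yv T.1))
      nlinarith
    nlinarith [norm_nonneg (ψ (yv T.1))]

theorem NE_residual : NE ∈ @residual _ (wot X) := by
  let _ := wot X
  have h1 : interior NE ∈ residual C := by
    refine residual_of_dense_open isOpen_interior ?_
    exact D_dense.mono D_subset_interior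
  exact Filter.mem_of_superset h1 interior_subset

theorem NP_residual : NP ∈ @residual _ (wot X) := by
  let _ := wot X
  refine residual_of_dense_open ?_ ?_
  · have : NP = ⋃ h : L2, {T : C | phi T.1 h ≠ 0} := by
      ext T
      simp only [NP, Set.mem_ofPred_eq, Set.mem_iUnion]
      constructor
      · intro h
        by_contra hcon
        push Not at hcon
        exact h (ContinuousLinearMap.ext fun x => by simpa using hcon x)
      · rintro ⟨h, hh⟩ h0
        exact hh (by rw [h0]; rfl)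
    rw [this]
    refine isOpen_iUnion fun h => ?_
    exact isOpen_ne_fun (ev_continuous X (inr h) (fstL 1 ℂ ℂ L2)) continuous_const
  · intro T
    by_cases hT : phi T.1 = 0
    swap
    · exact subset_closure hT
    obtain ⟨e, he⟩ := exists_orthonormal
    set ε : ℕ → ℝ := fun n => 1 / ((n : ℝ) + 1) with hεdef
    have hε0 : ∀ n, 0 < ε n := fun n => by simp only [hεdef]; positivity
    have hε1 : ∀ n, ε n ≤ 1 := fun n => by
      simp only [hεdef]
      rw [div_le_one (by positivity)]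
      have : (0 : ℝ) ≤ n := Nat.cast_nonneg n
      linarith
    have hεlim : Tendsto ε atTop (𝓝 0) := tendsto_one_div_add_atTop_nhds_zero_nat
    let B : X →L[ℂ] X := (inl : ℂ →L[ℂ] X).comp ((innerSL ℂ (e 0)).comp (sndL 1 ℂ ℂ L2))
    have hB : ∀ x, B x = inl ⟪e 0, x.snd⟫_ℂ := fun x => rfl
    have hBn : ∀ x, ‖B x‖ ≤ ‖x‖ := fun x => by
      rw [hB, norm_inl, norm_eq]
      have := norm_inner_le_norm (𝕜 := ℂ) (e 0) x.snd
      rw [he.norm_eq_one 0, one_mul] at this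
      linarith [norm_nonneg x.fst]
    let U : ℕ → X →L[ℂ] X := fun n => ((1 - ε n : ℝ) : ℂ) • T.1 + (ε n : ℂ) • B
    have hU : ∀ n x, U n x = ((1 - ε n : ℝ) : ℂ) • T.1 x + (ε n : ℂ) • B x := fun n x => rfl
    have hUn : ∀ n, ‖U n‖ ≤ 1 := fun n => by
      refine ContinuousLinearMap.opNorm_le_bound _ zero_le_one fun x => ?_
      rw [hU]
      refine (norm_add_le _ _).trans ?_
      rw [norm_smul, norm_smul, Complex.norm_real, Complex.norm_real,
        Real.norm_of_nonneg (by linarith [hε1 n]), Real.norm_of_nonneg (hε0 n).le]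
      have h5 : ‖T.1 x‖ ≤ ‖x‖ := by
        have := T.1.le_of_opNorm_le T.2 x
        rwa [one_mul] at this
      have h6 := hBn x
      have h7 := hε0 n
      have h8 := hε1 n
      nlinarith [norm_nonneg x]
    refine mem_closure_of_tendsto (f := fun n => (⟨U n, hUn n⟩ : C)) (b := atTop) ?_ ?_
    · rw [wot_tendsto_iff]
      intro x f
      have h1 : ∀ n, f (U n x) = ((1 - ε n : ℝ) : ℂ) * f (T.1 x) + (ε n : ℂ) * f (B x) :=
        fun n => by
          rw [hU, map_add, map_smul, map_smul, smul_eq_mul, smul_eq_mul]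
      simp only [h1]
      have c1 : Tendsto (fun n => (ε n : ℂ)) atTop (𝓝 0) := by
        have := (Complex.continuous_ofReal.tendsto 0).comp hεlim
        simpa [Function.comp_def] using this
      have l1 : Tendsto (fun n => ((1 - ε n : ℝ) : ℂ)) atTop (𝓝 1) := by
        have := c1.const_sub 1
        simpa using this
      simpa using (l1.mul_const (f (T.1 x))).add (c1.mul_const (f (B x)))
    · refine Eventually.of_forall fun n => ?_
      change phi (U n) ≠ 0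
      intro h0
      have h1 : phi (U n) (e 0) = 0 := by rw [h0]; rfl
      have h2 : phi (U n) (e 0) = ((1 - ε n : ℝ) : ℂ) * phi T.1 (e 0) + (ε n : ℂ) * ⟪e 0, e 0⟫_ℂ := by
        rw [phi_apply, hU]
        rfl
      rw [h2, hT, inner_self_eq_norm_sq_to_K, he.norm_eq_one 0] at h1
      simp at h1
      exact (hε0 n).ne' h1

theorem stable_residual :
    {T : C | ∀ (x : X) (f : X →L[ℂ] ℂ),
      Filter.Tendsto (fun n : ℕ => f ((T.1 ^ n) x)) Filter.atTop (nhds 0)} ∈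
        @residual _ (wot X) := by
  refine Filter.mem_of_superset (Filter.inter_mem NE_residual NP_residual) ?_
  rintro T ⟨h1, h2⟩ x f
  have := strongly_stable T.1 T.2 h2 h1 x
  have h3 := (f.continuous.tendsto 0).comp this
  rw [map_zero] at h3
  exact h3

theorem not_meagre :
    ¬ @IsMeagre C (wot X) {T : C | ∀ (x : X) (f : X →L[ℂ] ℂ),
      Filter.Tendsto (fun n : ℕ => f ((T.1 ^ n) x)) Filter.atTop (nhds 0)} := by
  let _ := wot X
  intro h
  have hb : BaireSpace C := wot_baire X X_reflexive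
  have h1 := Filter.inter_mem h stable_residual
  rw [Set.compl_inter_self] at h1
  have h2 : Dense (∅ : Set C) := dense_of_mem_residual h1
  have h3 : (∅ : Set C).Nonempty := by
    have : Nonempty C := ⟨⟨0, by simp⟩⟩
    exact h2.nonempty
  exact Set.not_nonempty_empty h3

end Pool.Agent.Helper28_Stab
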